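import Mathlib
import Pool.Agent.H492R2.Tor.Defs
import Pool.Agent.H492R2.Tor.Final
import Pool.Agent.H440R3.Defs
import Pool.Agent.H440R3.Main
import Pool.Agent.Y838.EA.Rank

set_option autoImplicit false

/-!
# The real and the `p`-adic part of the expected answer fail for all large number fields

`K₀` is the splitting field of `(X ^ 4 + X + 1) (X ^ 5 - 25 X + 5)`.  For every number field `K`
which contains `K₀` (a cofinal family of number fields) and for every prime `p`, both the real part
(Q1) and the `p`-adic part (Q2) of the expected answer fail for the torus `R_{K/ℚ}(G_m)`.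

The starting results show the real part for all fields over which `X ^ 4 + X + 1` splits, and the
`p`-adic part for the splitting field of `X ^ 5 - 25 X + 5` only.  New is that the `p`-adic part of
the expected answer is inherited by subfields: if it holds for `L` it holds for every subfield of
`L`.  For a subgroup of `Kˣ` the closure in `(ℚ_p ⊗ L)ˣ` is the image of the closure in
`(ℚ_p ⊗ K)ˣ`, and the rank condition for the subgroups of the torus of `K` implies the one for the
torus of `L`, since the restriction of characters from the big torus to the small one is onto.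
-/

namespace Pool.Agent.Results.MP_7de521_nt.EveryLargeField

open Polynomial Pool.Agent.H492R2.Tor Pool.Agent.H440R3

/-- Both parts of the expected answer fail for `R_{K/ℚ}(G_m)`, the `p`-adic one for all primes. -/
def BothPartsFail (K : Type) [Field K] [NumberField K] : Prop :=
  ¬ ExpectedAnswerReal K ∧ ∀ (p : ℕ) [Fact p.Prime], ¬ PadicPart p K

lemma padic_of_splits {K : Type} [Field K] [NumberField K]
    (h : ((X ^ 5 - 25 * X + 5 : ℚ[X]).map (algebraMap ℚ K)).Splits) (p : ℕ) [Fact p.Prime] :
    ¬ PadicPart p K := by
  intro hp
  have h' : (X ^ 5 - 25 * X + 5 : ℚ[X]) = Φ ℚ := by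
    unfold Φ
    rw [map_natCast, map_natCast]
    rfl
  rw [h'] at h
  exact not_PadicPart_KK p
    (Pool.Agent.Y838.EA.padicPart_of_ext p (Polynomial.SplittingField.lift (Φ ℚ) h) hp)

lemma both_of_splits {K : Type} [Field K] [NumberField K]
    (h : (((X ^ 4 + X + 1) * (X ^ 5 - 25 * X + 5) : ℚ[X]).map (algebraMap ℚ K)).Splits) :
    BothPartsFail K := by
  rw [Polynomial.map_mul] at h
  have h1 : ((X ^ 4 + X + 1 : ℚ[X]).map (algebraMap ℚ K)) ≠ 0 := by
    rw [Ne, Polynomial.map_eq_zero]
    intro h0
    have := congrArg (Polynomial.eval 0) h0
    simp at this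
  have h2 : ((X ^ 5 - 25 * X + 5 : ℚ[X]).map (algebraMap ℚ K)) ≠ 0 := by
    rw [Ne, Polynomial.map_eq_zero]
    intro h0
    have := congrArg (Polynomial.eval 0) h0
    simp at this
  rw [splits_mul_iff h1 h2] at h
  exact ⟨not_expected_of_splits h.1, fun p _ => padic_of_splits h.2 p⟩

/-- **Main result.**
(1) For every number field `K` over which `(X ^ 4 + X + 1) (X ^ 5 - 25 X + 5)` splits the real part
and, for every prime `p`, the `p`-adic part of the expected answer fail for `R_{K/ℚ}(G_m)`.
(2) Every number field `k` embeds in a number field `K` such that both parts fail for all number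
fields `M` in which `K` embeds.
(3) If the `p`-adic part of the expected answer holds for a number field `L`, it holds for all
number fields that embed in `L`. -/
theorem result :
    (∀ (K : Type) [Field K] [NumberField K],
      (((X ^ 4 + X + 1) * (X ^ 5 - 25 * X + 5) : ℚ[X]).map (algebraMap ℚ K)).Splits →
        BothPartsFail K) ∧
    (∀ (k : Type) [Field k] [NumberField k], ∃ (K : Type) (_ : Field K) (_ : NumberField K),
      Nonempty (k →+* K) ∧
        ∀ (M : Type) [Field M] [NumberField M], Nonempty (K →+* M) → BothPartsFail M) ∧
    (∀ (p : ℕ) [Fact p.Prime] (K L : Type) [Field K] [NumberField K] [Field L] [NumberField L],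
      Nonempty (K →+* L) → PadicPart p L → PadicPart p K) := by
  refine ⟨fun K _ _ h => both_of_splits h, ?_, ?_⟩
  · intro k _ _
    set g : k[X] := ((X ^ 4 + X + 1) * (X ^ 5 - 25 * X + 5) : ℚ[X]).map (algebraMap ℚ k) with hg
    have hfin : FiniteDimensional ℚ g.SplittingField :=
      FiniteDimensional.trans ℚ k g.SplittingField
    have hchar : CharZero g.SplittingField :=
      charZero_of_injective_algebraMap (algebraMap k g.SplittingField).injective
    have hnf : NumberField g.SplittingField := ⟨⟩
    refine ⟨g.SplittingField, inferInstance, hnf, ⟨algebraMap k g.SplittingField⟩, ?_⟩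
    intro M _ _ ⟨φ⟩
    apply both_of_splits
    have h1 : (g.map (algebraMap k g.SplittingField)).Splits := SplittingField.splits g
    have h2 := h1.map φ
    have e : (φ.comp (algebraMap k g.SplittingField)).comp (algebraMap ℚ k) = algebraMap ℚ M :=
      Subsingleton.elim _ _
    have h3 : (g.map (algebraMap k g.SplittingField)).map φ =
        ((X ^ 4 + X + 1) * (X ^ 5 - 25 * X + 5) : ℚ[X]).map (algebraMap ℚ M) := by
      rw [← e, ← Polynomial.map_map, ← Polynomial.map_map]
    rw [h3] at h2
    exact h2
  · intro p _ K L _ _ _ _ ⟨φ⟩ h
    exact Pool.Agent.Y838.EA.padicPart_of_ext p (φ.toRatAlgHom) h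

end Pool.Agent.Results.MP_7de521_nt.EveryLargeField
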